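import Pool.Agent.H432Z.RCMain

set_option autoImplicit false

/-- The real closure of a finite permutation group equals its strong 2-closure, with the single
exception of the trivial group on two points. -/
theorem Pool.Agent.Results.MP_5a426c_al.AClosure.result (Ω : Type) [Fintype Ω] [DecidableEq Ω]
    (G : Subgroup (Equiv.Perm Ω)) :
    H432Z.realClosure G = H432Z.strongTwoClosure G ↔ ¬ (Fintype.card Ω = 2 ∧ G = ⊥) :=
  H432Z.closure_eq_iff G
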